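import Mathlib
import Pool.Agent.H31.DeltaSys

set_option autoImplicit false

namespace Pool.Agent.Results.MP_028983_lc.AllCardinals

open Cardinal

universe u

theorem result (κ : Cardinal.{u}) (hκ : ℵ₀ ≤ κ) : Pool.Agent.H31.DeltaSys.Delta κ :=
  Pool.Agent.H31.DeltaSys.delta κ hκ

end Pool.Agent.Results.MP_028983_lc.AllCardinals
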