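import Mathlib
import Pool.Agent.H31.DeltaSys

set_option autoImplicit false

namespace Pool.Agent.Results.MP_028983_lc.NotNecessary

open Cardinal

universe u

theorem result : ∃ κ : Cardinal.{u}, ℵ₀ ≤ κ ∧ Pool.Agent.H31.DeltaSys.Delta κ ∧ κ < κ ^< κ := by
  have h0 : ℵ₀ ≤ (ℵ_ Ordinal.omega0 : Cardinal.{u}) := aleph0_le_aleph _
  refine ⟨ℵ_ Ordinal.omega0, h0, Pool.Agent.H31.DeltaSys.delta _ h0, ?_⟩
  refine (lt_power_cof_ord h0).trans_le (le_powerlt _ ?_)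
  rw [ord_aleph, Ordinal.cof_omega Ordinal.isSuccLimit_omega0, Ordinal.cof_omega0, ← aleph_zero]
  exact aleph_lt_aleph.2 Ordinal.omega0_pos

end Pool.Agent.Results.MP_028983_lc.NotNecessary
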